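import Mathlib
import Pool.Agent.N422.PN2

/-!
# The normal order of the Tate-Shafarevich groups in one-parameter families

`E_t : y² = x (x - D(t) u₀(t)) (x - D(t) u₁(t))`, where `u₀`, `u₁` and `u₂ = u₀ - u₁` are
polynomials with integer coefficients, `u_k` a constant times a product of `n_k` irreducible
polynomials, and `D = c ∏ g_i`. Let `s_k` be the number of the factors of `u_k` at which the elliptic
curve over `ℚ(t)` has split multiplicative reduction, and assume `3 n_k + s_k < 2 (n₀ + n₁ + n₂)`.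

For almost all `t` in every short interval `rank E_t` and `Ш(E_t)[2]` are bounded, while for each of
the three 2-isogenous curves `E'` the number of the elements of `Ш(E')` killed by `2` (or by `2 ^ j`)
is `2 ^ k` with `k` asymptotic to `κ log log M`, with an explicit constant `κ > 0`. The elements of
order four, eight, … contribute only a bounded number of cyclic factors.
-/

set_option autoImplicit false

namespace Pool.Agent.Results.MP_a43263_nt.NormalOrderPencils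

open Finset Polynomial

open Pool.Agent.TH841.SH.D (Sha)

/-- the curve `y² = x (x - A) (x - B)` over `ℚ` -/
def E (A B : ℤ) : WeierstrassCurve ℚ := ⟨0, -((A : ℚ) + B), 0, (A : ℚ) * B, 0⟩

/-- the quotient of `y² = x (x - a) (x - b)` by its subgroup generated by `(0, 0)`: the curve
`y² = x³ + 2 (a + b) x² + (a - b)² x` -/
def Q (a b : ℤ) : WeierstrassCurve ℚ := ⟨0, 2 * ((a : ℚ) + b), 0, ((a : ℚ) - b) ^ 2, 0⟩

/-- the quotients of `E A B` by the subgroups generated by `(0, 0)`, `(A, 0)`, `(B, 0)` -/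
def E' (i : Fin 3) (A B : ℤ) : WeierstrassCurve ℚ := ![Q A B, Q (-A) (B - A), Q (-B) (A - B)] i

/-- the elements of the Tate-Shafarevich group of `W` killed by `2 ^ j` -/
def tor (W : WeierstrassCurve ℚ) (j : ℕ) : Set (Sha W) := {x | (2 ^ j) • x = 0}

/-- the rank of the group of the rational points of `W` -/
noncomputable def rank (W : WeierstrassCurve ℚ) : ℕ := Module.finrank ℤ W.toAffine.Point

/-- `log log M` -/
noncomputable def loglog (M : ℕ) : ℝ := Real.log (Real.log M)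

variable {n : Fin 3 → ℕ} {m : ℕ}

/-- `u_k = a_k ∏ f_{k,i}` -/
noncomputable def u (a : Fin 3 → ℤ) (f : ∀ k : Fin 3, Fin (n k) → ℤ[X]) (k : Fin 3) : ℤ[X] :=
  C (a k) * ∏ i, f k i

/-- `D = c ∏ g_i` -/
noncomputable def D (c : ℤ) (g : Fin m → ℤ[X]) : ℤ[X] := C c * ∏ i, g i

/-- `v` is a square modulo `f` in `ℚ[t]` -/
def SqMod (f v : ℤ[X]) : Prop := ∃ q : ℚ[X], f.map (Int.castRingHom ℚ) ∣
  (q ^ 2 - v.map (Int.castRingHom ℚ))

/-- modulo a factor `f` of `u_k`, the curve `y² = x (x - D u₀) (x - D u₁)` has a node whose tangent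
directions are the square roots of `v_k`; so the reduction at `f` is split if and only if `v_k` is a
square modulo `f` -/
noncomputable def v (a : Fin 3 → ℤ) (f : ∀ k : Fin 3, Fin (n k) → ℤ[X]) (c : ℤ)
    (g : Fin m → ℤ[X]) : Fin 3 → ℤ[X] :=
  ![-(D c g * u a f 1), -(D c g * u a f 0), D c g * u a f 0]

open Classical in
/-- the number `s_k` of the factors of `u_k` with split multiplicative reduction -/
noncomputable def s (a : Fin 3 → ℤ) (f : ∀ k : Fin 3, Fin (n k) → ℤ[X]) (c : ℤ)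
    (g : Fin m → ℤ[X]) (k : Fin 3) : ℕ := (univ.filter (fun i => SqMod (f k i) (v a f c g k))).card

/-- the products of the differences between the `i`-th of the roots `0`, `u₀`, `u₁` and the other
two roots -/
noncomputable def w (a : Fin 3 → ℤ) (f : ∀ k : Fin 3, Fin (n k) → ℤ[X]) : Fin 3 → ℤ[X] :=
  ![u a f 0 * u a f 1, u a f 0 * u a f 2, -(u a f 1 * u a f 2)]

open Classical in
/-- the number `r_i` of the factors `g_j` of `D` modulo which `w_i` is not a square -/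
noncomputable def r (a : Fin 3 → ℤ) (f : ∀ k : Fin 3, Fin (n k) → ℤ[X]) (g : Fin m → ℤ[X])
    (i : Fin 3) : ℕ := (univ.filter (fun j => ¬ SqMod (g j) (w a f i))).card

/-- the constant `κ_i = n₀ + n₁ + n₂ - (3 n_k + s_k) / 2 + r_i / 2`, where `k = 2, 1, 0` for
`i = 0, 1, 2`: `u_k` is the difference of the two roots different from the `i`-th root -/
noncomputable def κ (a : Fin 3 → ℤ) (f : ∀ k : Fin 3, Fin (n k) → ℤ[X]) (c : ℤ)
    (g : Fin m → ℤ[X]) (i : Fin 3) : ℝ :=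
  (n 0 + n 1 + n 2 : ℝ) - (3 * n (![2, 1, 0] i) + s a f c g (![2, 1, 0] i)) / 2 + r a f g i / 2

/-- `(A, B)` is typical, for a triple of constants `κ` and numbers `δ`, `R`, `M`:
`A`, `B`, `A - B` are nonzero, and for the curve `E = E A B` and all `j ≥ 1` we have
`2 ^ (rank E) * #Ш(E)[2 ^ j] ^ (1 / j) ≤ 2 ^ R`. For the 2-isogenous curves `E' = E' i A B`: the rank
is at most `R`; for all `j ≥ 1` the binary logarithm of `#Ш(E')[2 ^ j]` is between
`(κ_i - δ) log log M` and `(κ_i + δ) log log M + R j`, and `#(2 Ш(E')[2 ^ j]) ≤ 2 ^ (R j)`. -/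
structure Typical (κ : Fin 3 → ℝ) (δ : ℝ) (R M : ℕ) (A B : ℤ) : Prop where
  ne : A ≠ 0 ∧ B ≠ 0 ∧ A ≠ B
  curve : ∀ j : ℕ, 1 ≤ j → (tor (E A B) j).Finite ∧
    2 ^ (rank (E A B) * j) * (tor (E A B) j).ncard ≤ 2 ^ (R * j)
  rank : ∀ i, rank (E' i A B) ≤ R
  finite : ∀ (i : Fin 3) (j : ℕ), 1 ≤ j → (tor (E' i A B) j).Finite
  lower : ∀ (i : Fin 3) (j : ℕ), 1 ≤ j →
    (κ i - δ) * loglog M ≤ Real.logb 2 (tor (E' i A B) j).ncard
  upper : ∀ (i : Fin 3) (j : ℕ), 1 ≤ j →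
    Real.logb 2 (tor (E' i A B) j).ncard ≤ (κ i + δ) * loglog M + R * j
  double : ∀ (i : Fin 3) (j : ℕ), 1 ≤ j →
    ((fun x => x + x) '' tor (E' i A B) j).ncard ≤ 2 ^ (R * j)

lemma E'_eq (i : Fin 3) (A B : ℤ) : E' i A B =
    Pool.Agent.TH841.LS.WI (Pool.Agent.Y676.IS.tri i A B).1 (Pool.Agent.Y676.IS.tri i A B).2 := by
  fin_cases i <;> rfl

lemma typical_of {κ : Fin 3 → ℝ} {δ : ℝ} {R M : ℕ} {A B : ℤ}
    (h : ∀ i : Fin 3, Pool.Agent.R431.NO.OkS ((κ i - δ) * loglog M) ((κ i + δ) * loglog M) R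
      (Pool.Agent.Y676.IS.tri i A B)) : Typical κ δ (R + 1) M A B := by
  obtain ⟨h1, h2, h3, h4, h5⟩ := h 0
  have hR : ∀ j : ℕ, (2 : ℕ) ^ (R * j) ≤ 2 ^ ((R + 1) * j) := fun j =>
    Nat.pow_le_pow_right two_pos (Nat.mul_le_mul_right _ (Nat.le_succ R))
  have ht : ∀ i : Fin 3, rank (E' i A B) ≤ R ∧ ∀ j : ℕ, 1 ≤ j →
      {x : Sha (E' i A B) | (2 ^ j) • x = 0}.Finite ∧
      (κ i - δ) * loglog M ≤ Real.logb 2 ({x : Sha (E' i A B) | (2 ^ j) • x = 0}.ncard) ∧
      Real.logb 2 ({x : Sha (E' i A B) | (2 ^ j) • x = 0}.ncard) ≤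
        (κ i + δ) * loglog M + ((R + 1 : ℕ) : ℝ) * j ∧
      {y : Sha (E' i A B) | ∃ x, (2 ^ j) • x = 0 ∧ y = x + x}.ncard ≤ 2 ^ (R * j) := by
    intro i
    rw [E'_eq]
    exact Pool.Agent.R431.NO.typ1 (h i)
  refine ⟨⟨h1, h2, h3⟩, fun j hj => ⟨(h4 j hj).1, (h4 j hj).2.trans (hR j)⟩,
    fun i => (ht i).1.trans (Nat.le_succ R), fun i j hj => ((ht i).2 j hj).1,
    fun i j hj => ((ht i).2 j hj).2.1, fun i j hj => ?_, fun i j hj => ?_⟩
  · have := ((ht i).2 j hj).2.2.1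
    exact_mod_cast this
  · have e : (fun x => x + x) '' tor (E' i A B) j =
        {y | ∃ x : Sha (E' i A B), (2 ^ j) • x = 0 ∧ y = x + x} := by
      ext y
      constructor
      · rintro ⟨x, hx, rfl⟩
        exact ⟨x, hx, rfl⟩
      · rintro ⟨x, hx, rfl⟩
        exact ⟨x, hx, rfl⟩
    rw [e]
    exact ((ht i).2 j hj).2.2.2.trans (hR j)

lemma v_eq (a : Fin 3 → ℤ) (f : ∀ k : Fin 3, Fin (n k) → ℤ[X]) (c : ℤ) (g : Fin m → ℤ[X])
    (k : Fin 3) : Pool.Agent.TH841.TR.vp (Pool.Agent.TH841.LS.DG c g) a f k = v a f c g k := by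
  fin_cases k
  · exact Pool.Agent.TH841.TR.vp_zero _ a f
  · exact Pool.Agent.TH841.TR.vp_one _ a f
  · exact Pool.Agent.TH841.TR.vp_two _ a f

lemma κ_eq (a : Fin 3 → ℤ) (f : ∀ k : Fin 3, Fin (n k) → ℤ[X]) (c : ℤ) (g : Fin m → ℤ[X])
    (i : Fin 3) : Pool.Agent.N422.PN.ka a f c g i = κ a f c g i := by
  classical
  have e1 : Pool.Agent.N422.PN.sg i 2 = ![2, 1, 0] i := by
    fin_cases i <;> rfl
  have e2 : Pool.Agent.TH841.TR.UP (Pool.Agent.N422.PN.ra a i) (Pool.Agent.N422.PN.rf f i) 0 *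
      Pool.Agent.TH841.TR.UP (Pool.Agent.N422.PN.ra a i) (Pool.Agent.N422.PN.rf f i) 1 =
      w a f i := by
    rw [Pool.Agent.N422.PN.UP_rot, Pool.Agent.N422.PN.UP_rot]
    fin_cases i
    · show C (1 : ℤ) * u a f 0 * (C (1 : ℤ) * u a f 1) = u a f 0 * u a f 1
      rw [C_1]
      ring
    · show C (-1 : ℤ) * u a f 0 * (C (-1 : ℤ) * u a f 2) = u a f 0 * u a f 2
      rw [C_neg, C_1]
      ring
    · show C (-1 : ℤ) * u a f 1 * (C (1 : ℤ) * u a f 2) = -(u a f 1 * u a f 2)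
      rw [C_neg, C_1]
      ring
  unfold Pool.Agent.N422.PN.ka κ s r
  rw [e1]
  simp only [e2, v_eq]
  rfl

open Classical in
/-- **Theorem.** Let `u_k = a_k ∏_{i < n_k} f_{k,i}`, `k = 0, 1, 2`, with `u₀ - u₁ = u₂`, and
`D = c ∏_{i < m} g_i`, where `a_k`, `c` are nonzero and the `n₀ + n₁ + n₂ + m` polynomials `f_{k,i}`,
`g_i` with integer coefficients are irreducible of positive degree and pairwise non-associated.
Assume that `3 n_k + s_k < 2 (n₀ + n₁ + n₂)` for `k = 0, 1, 2`. Then `κ_i > 0` for `i = 0, 1, 2`, and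
for all `δ, ε > 0` and `L` there are `R`, `M₀` such that for all `M ≥ M₀` and `|N| ≤ M ^ L`, all the
integers `N < t ≤ N + M` with at most `ε M` exceptions are such that the pair
`(A, B) = (D(t) u₀(t), D(t) u₁(t))` is typical: the curve `E_t : y² = x (x - A) (x - B)` has bounded
rank and bounded `Ш(E_t)[2]`, and for its three 2-isogenous curves `E'` the number of the elements of
`Ш(E')` killed by `2 ^ j` is `2 ^ k` with `k` asymptotic to `κ_i log log M`. -/
theorem result (a : Fin 3 → ℤ) (f : ∀ k : Fin 3, Fin (n k) → ℤ[X]) (c : ℤ) (g : Fin m → ℤ[X])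
    (ha : ∀ k, a k ≠ 0) (hc : c ≠ 0)
    (hf : ∀ k i, Irreducible (f k i) ∧ 0 < (f k i).natDegree)
    (hg : ∀ i, Irreducible (g i) ∧ 0 < (g i).natDegree)
    (hff : ∀ k i l j, (⟨k, i⟩ : Σ k : Fin 3, Fin (n k)) ≠ ⟨l, j⟩ → ¬ Associated (f k i) (f l j))
    (hgg : ∀ i j, i ≠ j → ¬ Associated (g i) (g j)) (hfg : ∀ k i j, ¬ Associated (f k i) (g j))
    (hu : u a f 0 - u a f 1 = u a f 2)
    (hs : ∀ k, 3 * n k + s a f c g k < 2 * (n 0 + n 1 + n 2)) :
    (∀ i, 0 < κ a f c g i) ∧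
    ∀ (δ ε : ℝ) (L : ℕ), 0 < δ → 0 < ε → ∃ R M₀ : ℕ,
      ∀ (N : ℤ) (M : ℕ), M₀ ≤ M → |N| ≤ (M : ℤ) ^ L →
        (((Ioc N (N + (M : ℤ))).filter (fun t => ¬ Typical (κ a f c g) δ R M
          ((D c g * u a f 0).eval t) ((D c g * u a f 1).eval t))).card : ℝ) ≤ ε * M := by
  have hirr : Pool.Agent.TH841.PT.Irr (Pool.Agent.TH841.TR.allf g f) := by
    refine ⟨?_, ?_, ?_⟩
    · rintro (x | i)
      · exact (hf x.1 x.2).1
      · exact (hg i).1
    · rintro (x | i)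
      · exact (hf x.1 x.2).2
      · exact (hg i).2
    · rintro (x | i) (y | j) hxy
      · exact hff x.1 x.2 y.1 y.2 (fun h => hxy (congrArg Sum.inl h))
      · exact hfg x.1 x.2 j
      · exact fun h => hfg y.1 y.2 i h.symm
      · exact hgg i j (fun h => hxy (congrArg Sum.inr h))
  have hbal : Pool.Agent.R421.UR.BalA (Pool.Agent.TH841.LS.DG c g) a f := by
    intro k
    rw [v_eq]
    exact hs k
  refine ⟨fun i => ?_, fun δ ε L hδ hε => ?_⟩
  · have h1 : (3 * n (![2, 1, 0] i) + s a f c g (![2, 1, 0] i) : ℝ) < 2 * (n 0 + n 1 + n 2) := by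
      exact_mod_cast hs (![2, 1, 0] i)
    have h2 : (0 : ℝ) ≤ r a f g i := Nat.cast_nonneg _
    unfold κ
    linarith
  · obtain ⟨R, M0, h⟩ := Pool.Agent.N422.PN.pen3 a f c g ha hc hirr hu hbal δ ε L hδ hε
    refine ⟨R + 1, M0, fun N M hM hN => le_trans (Nat.cast_le.2 (card_le_card ?_)) (h N M hM hN)⟩
    intro t ht
    rw [mem_filter] at ht ⊢
    refine ⟨ht.1, fun h' => ht.2 (typical_of fun i => ?_)⟩
    have h1 := h' i
    rw [κ_eq] at h1
    exact h1

end Pool.Agent.Results.MP_a43263_nt.NormalOrderPencils
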