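import Pool.Agent.N825.ND.Fin

set_option autoImplicit false

/-!
# Good rational approximations whose numerators and denominators both lie in record prime gaps

Write `f(Z) = log Z (log₂ Z)² log₄ Z / (log₃ Z)²` for the record size of the prime-free intervals.
For `0 < ε < 1` there is `κ > 0` such that, for suitable pairs `(Z, ρ)`, for ALL real `M` and `β` there
are integers `n` in `(M, M + Z]` and `m` with `|α n - β - m| ≤ Z ^ (-ρ)` such that every integer within
`κ f(Z)` of `n` and every integer within `κ f(Z)` of `m` has a prime factor `≤ Z ^ ε`: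

* `α` irrational: arbitrarily large `Z`, with `ρ = 1 - ε`;
* `‖q α‖ ≥ C q ^ (-μ)` for all `q ≥ 1` (`μ ≥ 1`): all large `Z`, with `ρ = 1 / μ - ε`.

In particular every positive irrational number `α` has infinitely many rational approximations `m / n`
with `|α - m / n| ≤ n ^ (-(2 - ε))` for which no prime lies within `κ f(n)` of the denominator `n` and
no prime lies within `κ f(n)` of the numerator `m`.

The starting result `MP_7b323f_nt.WellApproximatedGapCentres` (helper915) treats the denominators alone.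

Proof: two good approximations `p₁/s₁`, `p₂/s₂` with determinant `± 1` give a two dimensional family
`(n, m) = (n₀ + x s₁ + y s₂, m₀ + x p₁ + y p₂)` near every point `(M, α M - β)` of the plane; since the
matrix is invertible modulo every integer the PAIRS `(n, m)` of a box are equidistributed modulo all
small integers, whatever the size of the coefficients is, and the joint form `critJ` (helper961) of
the covering sieve of the starting library applies.
-/

namespace Pool.Agent.Results.MP_c853c5_nt.NumeratorsAndDenominators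

open Filter

/-- The record scale `f(x) = log x (log₂ x)² log₄ x / (log₃ x)²` (iterated natural logarithms). -/
noncomputable def f (x : ℝ) : ℝ :=
  Real.log x * (Real.log (Real.log x)) ^ 2 * Real.log (Real.log (Real.log (Real.log x))) /
    (Real.log (Real.log (Real.log x))) ^ 2

/-- Every integer at distance at most `d` from `n` has a prime factor at most `y`; in particular no
prime larger than `y` is at distance at most `d` from `n` or from `-n`. -/
def SmallFactorsAround (d y : ℝ) (n : ℤ) : Prop :=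
  ∀ t : ℤ, |(t : ℝ) - n| ≤ d → ∃ p : ℕ, p.Prime ∧ (p : ℝ) ≤ y ∧ (p : ℤ) ∣ t

/-- In every interval `(M, M + Z]` and for every `β` there are `n` and `m` with
`|α n - β - m| ≤ Z ^ (-ρ)`, both surrounded by integers with small prime factors. -/
def BothInRecordGaps (κ ε α ρ Z : ℝ) : Prop :=
  ∀ M β : ℝ, ∃ n m : ℤ, M < n ∧ (n : ℝ) ≤ M + Z ∧ |α * n - β - m| ≤ Z ^ (-ρ) ∧
    SmallFactorsAround (κ * f Z) (Z ^ ε) n ∧ SmallFactorsAround (κ * f Z) (Z ^ ε) m

/-- **Good rational approximations with numerator and denominator in record prime gaps.** -/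
theorem result (ε : ℝ) (hε : 0 < ε) (hε1 : ε < 1) :
    (∃ κ : ℝ, 0 < κ ∧
      (∀ α : ℝ, Irrational α → ∀ Z₀ : ℝ, ∃ Z : ℝ, Z₀ ≤ Z ∧ BothInRecordGaps κ ε α (1 - ε) Z) ∧
      (∀ α μ C : ℝ, 1 ≤ μ → 0 < C →
        (∀ q : ℕ, 1 ≤ q → ∀ p : ℤ, C * (q : ℝ) ^ (-μ) ≤ |(q : ℝ) * α - p|) →
        ∃ Z₀ : ℝ, ∀ Z : ℝ, Z₀ ≤ Z → BothInRecordGaps κ ε α (1 / μ - ε) Z)) ∧
    (∃ κ : ℝ, 0 < κ ∧ ∀ α : ℝ, 0 < α → Irrational α → ∀ X : ℝ, ∃ n m : ℕ, X ≤ n ∧ X ≤ m ∧
      |α - m / n| ≤ (n : ℝ) ^ (-(2 - ε)) ∧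
      (∀ q : ℕ, q.Prime → κ * f n < |(q : ℝ) - n|) ∧
      (∀ q : ℕ, q.Prime → κ * f n < |(q : ℝ) - m|)) := by
  refine ⟨?_, Pool.Agent.N825.ND.homog ε hε hε1⟩
  obtain ⟨κ, hκ, h1, h2⟩ := Pool.Agent.N825.ND.main ε hε hε1.le
  refine ⟨κ, hκ, fun α hα Z₀ => ?_, fun α μ C hμ hC h => ?_⟩
  · obtain ⟨Z, hZ, hcl⟩ := frequently_atTop.1 (h1 α hα) Z₀
    exact ⟨Z, hZ, hcl⟩
  · obtain ⟨Z₀, hZ₀⟩ := eventually_atTop.1 (h2 α μ C hμ hC h)
    exact ⟨Z₀, hZ₀⟩

end Pool.Agent.Results.MP_c853c5_nt.NumeratorsAndDenominators
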