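import Pool.Agent.N365.PG.Joint

set_option autoImplicit false

/-!
# Consecutive prime gaps at every scale as polynomial return times, with all their sums in one colour

Let `f(x) = log x (log₂ x)² log₄ x / (log₃ x)²`, the size of the largest gaps between consecutive
primes that are known to occur up to `x`.  Fix the numbers `m` (of gaps), `k` and `ρ`, `K` (of
colours), `N`, `D`, `s` and `ε > 0`.  There are `η, c > 0`, `C` and `x₀` such that the following holds
for all `x ≥ x₀` and all `H` with `1 ≤ H ≤ c f(x)`.  Take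

* any colouring `χ` of the `k`-tuples of integers with `ρ` colours;
* any dimension `e`, any `N` polynomial maps `P_j : ℝ^m → ℝ^e` of degree at most `D` without constant
  term, all of whose components, except at most `s` of them, are integer-valued on `ℤ^m`;
* any colouring `Ψ` of `ℤ^e` with `K` colours.

Then there are at least `x^(7/8)` clusters of `m + 1` consecutive primes up to `x` that follow a gap of
size at least `c f(x)`, whose gaps `d_1, …, d_m` are between `H` and `C H` and for which

* all the `k`-tuples `(∑_(F_1) d_i, …, ∑_(F_k) d_i)`, `∅ ≠ F_1 < F_2 < … < F_k ⊆ {1, …, m}`, have the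
  same colour under `χ`;
* all the components of all the `P_j(d_1, …, d_m)` are within `ε` of integers;
* the set of the `a ∈ ℤ^e` for which `a, a + [P_1(d)], …, a + [P_N(d)]` have the same colour under `Ψ`
  has upper Banach density at least `η`, where `[ ]` is the nearest integer in every coordinate.

With `H = c f(x)` all the `m + 1` gaps have record size.  For example, for every finite colouring of
the integers and all polynomials `Q_1, …, Q_N ∈ ℤ[y]` without constant term there are `x^(7/8)` chains of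
`m` consecutive record gaps up to `x` such that, for all `a` in a set of positive density, `a` and all the
`a + Q_j(∑_(i ∈ F) d_i)`, `∅ ≠ F ⊆ {1, …, m}`, `1 ≤ j ≤ N`, have the same colour, while the sums
`∑_(i ∈ F) d_i` themselves have the same colour and all the `θ Q_j(∑_(i ∈ F) d_i)` are within `ε` of
integers, for any prescribed real number `θ`.

The starting result `MillikenTaylorForGaps` is the first item alone.  The last two items alone are the
theorem `Pool.Agent.Y898.PolyGaps.poly_gaps` of the starting files, which no result uses.  The new part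
is the transfer principle `Pool.Agent.N365.PG.joint`: every property of `m`-tuples of integers that
occurs in every long sequence of sums is shared by the gaps of `x^(7/8)` clusters all of whose increasing
tuples of sums of gaps have moreover the same colour.
-/

namespace Pool.Agent.Results.MP_ff81b6_nt.PolynomialReturns

open Finset

/-- The record scale `f(x) = log x (log₂ x)² log₄ x / (log₃ x)²` (iterated natural logarithms). -/
noncomputable def f (x : ℝ) : ℝ :=
  Real.log x * (Real.log (Real.log x)) ^ 2 * Real.log (Real.log (Real.log (Real.log x))) /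
    (Real.log (Real.log (Real.log x))) ^ 2

/-- The `i`-th prime, numbered from `p 0 = 2`. -/
noncomputable def p (i : ℕ) : ℕ := Nat.nth Nat.Prime i

/-- The gap after the `i`-th prime. -/
noncomputable def d (i : ℕ) : ℤ := (p (i + 1) : ℤ) - p i

/-- The primes `p_n, …, p_(n+m)` are at most `x`, the `m` gaps between them are at least `H` and at
most `C H`, and the gap before `p_n` is at least `c f(x)`. -/
def Cluster (c C x H : ℝ) (m n : ℕ) : Prop :=
  0 < n ∧ (p (n + m) : ℝ) ≤ x ∧ c * f x ≤ (d (n - 1) : ℝ) ∧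
    ∀ i < m, H ≤ (d (n + i) : ℝ) ∧ (d (n + i) : ℝ) ≤ C * H

/-- The set `A ⊆ ℤ^e` has upper Banach density at least `η`: there are arbitrarily large cubes in which
its proportion is at least `η`. -/
def Dense {e : ℕ} (A : Set (Fin e → ℤ)) (η : ℝ) : Prop :=
  ∀ L : ℕ, ∃ N : ℕ, L ≤ N ∧ ∃ x : Fin e → ℤ,
    η * (N : ℝ) ^ e ≤ (Set.ncard {v | v ∈ A ∧ ∀ i, x i ≤ v i ∧ v i < x i + N} : ℝ)

/-- The value of a polynomial in `m` variables at the vector of the `m` gaps after `p_n`. -/
noncomputable def val {m : ℕ} (P : MvPolynomial (Fin m) ℝ) (n : ℕ) : ℝ :=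
  MvPolynomial.eval (fun l : Fin m => ((d (n + l) : ℤ) : ℝ)) P

theorem ev_eq {m D e : ℕ} (P : Fin e → MvPolynomial (Fin m) ℝ) (hD : ∀ i, (P i).totalDegree ≤ D)
    (x : Fin m → ℝ) (i : Fin e) :
    Pool.Agent.Y898.PR.ev (fun (t : Fin m → Fin (D + 1)) (i : Fin e) =>
      MvPolynomial.coeff (Finsupp.equivFunOnFinite.symm (fun l => (t l : ℕ))) (P i)) x i =
      MvPolynomial.eval x (P i) := by
  classical
  unfold Pool.Agent.Y898.PR.ev
  rw [MvPolynomial.eval_eq', Finset.sum_apply]
  simp only [Pi.smul_apply, smul_eq_mul]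
  have hinj : Function.Injective (fun t : Fin m → Fin (D + 1) =>
      Finsupp.equivFunOnFinite.symm (fun l => (t l : ℕ))) := by
    intro t t' h
    have h1 := Finsupp.equivFunOnFinite.symm.injective h
    funext l
    exact Fin.ext (congrFun h1 l)
  have h1 : (P i).support ⊆ univ.image (fun t : Fin m → Fin (D + 1) =>
      Finsupp.equivFunOnFinite.symm (fun l => (t l : ℕ))) := by
    intro b hb
    have h2 : ∀ l, b l < D + 1 := by
      intro l
      have h3 := MvPolynomial.le_totalDegree hb
      have h4 : b l ≤ b.sum fun _ c => c := by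
        rw [Finsupp.sum_fintype _ _ (fun _ => rfl)]
        exact single_le_sum (f := fun l => b l) (fun _ _ => Nat.zero_le _) (mem_univ l)
      have h5 := hD i
      omega
    refine mem_image.2 ⟨fun l => ⟨b l, h2 l⟩, mem_univ _, ?_⟩
    ext l
    simp
  rw [Finset.sum_subset h1]
  · rw [Finset.sum_image fun a _ b _ h => hinj h]
    refine sum_congr rfl fun t _ => ?_
    rw [mul_comm]
    simp
  · intro b _ hb
    rw [MvPolynomial.notMem_support_iff.1 hb, zero_mul]

theorem cluster_of {c C x H : ℝ} {m n : ℕ} {Q : (Fin m → ℤ) → Prop}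
    (h : n ∈ Pool.Agent.Y898.PolyGaps.Cl c C x H m Q) :
    Cluster c C x H m n ∧ Q (fun l => d (n + l)) := by
  obtain ⟨h1, h2, h3, h4, h5⟩ := h
  refine ⟨⟨h1, h2, ?_, fun i hi => ?_⟩, h5⟩
  · unfold d p
    rw [Nat.sub_add_cancel h1]
    push_cast
    exact h3
  · unfold d p
    push_cast
    exact h4 i hi

theorem finite_of {x : ℝ} {m : ℕ} {S : Set ℕ} (h : ∀ n ∈ S, (p (n + m) : ℝ) ≤ x) : S.Finite := by
  refine (Set.finite_Iic ⌊x⌋₊).subset ?_
  intro n hn
  refine Nat.le_floor (le_trans ?_ (h n hn))
  have h2 : n + m ≤ Nat.nth Nat.Prime (n + m) :=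
    (Nat.nth_strictMono Nat.infinite_setOfPred_prime).le_apply
  exact_mod_cast (Nat.le_add_right n m).trans h2

/-- **Consecutive gaps at every scale as polynomial return times, with all their sums in one
colour.** -/
theorem result (k m ρ K N D s : ℕ) (ε : ℝ) (hε : 0 < ε) : ∃ η c C : ℝ, 0 < η ∧ 0 < c ∧
    ∃ x₀ : ℝ, ∀ x : ℝ, x₀ ≤ x → ∀ H : ℝ, 1 ≤ H → H ≤ c * f x →
    ∀ (χ : (Fin k → ℤ) → Fin ρ) (e : ℕ) (P : Fin N → Fin e → MvPolynomial (Fin m) ℝ),
    (∀ j i, MvPolynomial.constantCoeff (P j i) = 0) → (∀ j i, (P j i).totalDegree ≤ D) →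
    ∀ S : Finset (Fin e), S.card ≤ s →
    (∀ i, i ∉ S → ∀ j, ∀ v : Fin m → ℤ, ∃ u : ℤ,
      MvPolynomial.eval (fun l => (v l : ℝ)) (P j i) = u) →
    ∀ Ψ : (Fin e → ℤ) → Fin K,
    x ^ (7 / 8 : ℝ) ≤ (Set.ncard {n : ℕ | Cluster c C x H m n ∧
      (∃ col, ∀ I : Fin k → Finset (Fin m), (∀ l, (I l).Nonempty) →
        (∀ l l', l < l' → ∀ i ∈ I l, ∀ j ∈ I l', i < j) →
        χ (fun l => ∑ i ∈ I l, d (n + i)) = col) ∧
      (∀ j i, |val (P j i) n - round (val (P j i) n)| < ε) ∧
      Dense {a : Fin e → ℤ | ∀ j, Ψ (fun i => a i + round (val (P j i) n)) = Ψ a} η} : ℝ) := by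
  classical
  obtain ⟨r, η, hη, hret⟩ := Pool.Agent.Y898.Den.returns m K N D s ε hε
  obtain ⟨c, C, hc, -, h⟩ := Pool.Agent.N365.PG.joint k m ρ r
  obtain ⟨x₀, hx₀⟩ := Filter.eventually_atTop.1 h
  refine ⟨η, c, C, hη, hc, x₀, fun x hx H hH hHc χ e P hP0 hPD S hS hint Ψ => ?_⟩
  have hev : ∀ j (y : Fin m → ℝ) i, Pool.Agent.Y898.PR.ev
      (fun (t : Fin m → Fin (D + 1)) (i : Fin e) =>
        MvPolynomial.coeff (Finsupp.equivFunOnFinite.symm (fun l => (t l : ℕ))) (P j i)) y i =
      MvPolynomial.eval y (P j i) := fun j y i => ev_eq (P j) (hPD j) y i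
  refine (hx₀ x hx H hH hHc χ (fun v => (∀ j i, |MvPolynomial.eval (fun l => ((v l : ℤ) : ℝ)) (P j i) -
      round (MvPolynomial.eval (fun l => ((v l : ℤ) : ℝ)) (P j i))| < ε) ∧
      Pool.Agent.TH709.RGap.Dense {a : Fin e → ℤ | ∀ j, Ψ (fun i => a i +
        round (MvPolynomial.eval (fun l => ((v l : ℤ) : ℝ)) (P j i))) = Ψ a} η) ?_).trans ?_
  · intro B hB y hy
    obtain ⟨α, hα, h1, h2⟩ := hret e (fun j (t : Fin m → Fin (D + 1)) (i : Fin e) =>
        MvPolynomial.coeff (Finsupp.equivFunOnFinite.symm (fun l => (t l : ℕ))) (P j i)) (by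
          intro j
          funext i
          have h3 := hP0 j i
          rw [MvPolynomial.constantCoeff_eq] at h3
          simp only [Pi.zero_apply, Fin.val_zero]
          rw [← h3]
          congr 1
          ext l
          simp) S hS (by
          intro i hi j v
          obtain ⟨u, hu⟩ := hint i hi j v
          exact ⟨u, by rw [hev]; exact hu⟩) Ψ (fun n => ((B * y n : ℕ) : ℤ))
    simp only [hev] at h1 h2
    exact ⟨α, hα, h1, h2⟩
  · rw [Nat.cast_le]
    refine Set.ncard_le_ncard ?_ (finite_of (m := m) fun n hn => hn.1.2.1)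
    intro n hn
    obtain ⟨h1, ⟨h2, h3⟩, h4⟩ := cluster_of hn
    exact ⟨h1, h4, h2, h3⟩

end Pool.Agent.Results.MP_ff81b6_nt.PolynomialReturns
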