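import Mathlib
import Pool.Agent.H622R3.SP.Good
import Pool.Agent.H622R3.SP.Metric

set_option autoImplicit false

/-!
# Primes in all intervals that end at `α ^ (b n)`, for almost every base `α`

For every `0 < δ < 1` there are `K, λ, c > 0` such that for EVERY sequence of real exponents
`b n → ∞` (of arbitrary growth, e.g. `b n = n`, `n²`, `2 ^ n`, `√(log n)`) almost every base `α > 1`
has the following property: for a set of indices `n` of upper density at least `c` the number of primes
in `(x - H, x)`, `x = α ^ (b n)`, is between `(1 - δ) H / log x` and `λ H / log x` simultaneously for ALL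
lengths `K log x ≤ H ≤ x`.
-/

open Filter MeasureTheory

namespace Pool.Agent.Results.MP_31d0eb_nt.PowersOfAlmostEveryBase

/-- The number of primes in the open interval `(x - H, x)`. -/
noncomputable def primesBelow (x H : ℝ) : ℕ := {p : ℕ | p.Prime ∧ x - H < p ∧ (p : ℝ) < x}.ncard

/-- At the point `x` all intervals `(x - H, x)` with `K log x ≤ H ≤ x` contain the right number of
primes, up to the constant factors `1 - δ` and `lam`. -/
def Regular (δ K lam x : ℝ) : Prop := ∀ H : ℝ, K * Real.log x ≤ H → H ≤ x →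
  (1 - δ) * H / Real.log x ≤ primesBelow x H ∧ (primesBelow x H : ℝ) ≤ lam * H / Real.log x

open Classical in
theorem result : ∀ δ : ℝ, 0 < δ → δ < 1 → ∃ K lam c : ℝ, 0 < K ∧ 0 < lam ∧ 0 < c ∧
    ∀ b : ℕ → ℝ, Tendsto b atTop atTop → ∀ᵐ α : ℝ, 1 < α →
      ∃ᶠ N : ℕ in atTop, c * N ≤
        (((Finset.range N).filter (fun n : ℕ => Regular δ K lam (α ^ b n))).card : ℝ) := by
  intro δ h0 h1
  obtain ⟨K, lam, c, hK, hlam, hc, h⟩ := Pool.Agent.H622R3.SP.back_all_scales δ h0 h1
  refine ⟨K, lam, c / 2, hK, hlam, by linarith, fun b hb => ?_⟩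
  have h2 := Pool.Agent.H622R3.SP.metric
    {m : ℕ | ∀ x : ℝ, (m : ℝ) < x → x < m + 1 → Regular δ K lam x} c hc h b hb
  filter_upwards [h2] with α h3 h4
  refine (h3 h4).mono fun N h5 => h5.trans ?_
  refine Nat.cast_le.2 (Finset.card_le_card fun n hn => ?_)
  rw [Finset.mem_filter] at hn ⊢
  obtain ⟨h6, m, h7, h8, h9⟩ := hn
  exact ⟨h6, h7 _ h8 h9⟩

end Pool.Agent.Results.MP_31d0eb_nt.PowersOfAlmostEveryBase
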