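import Pool.Agent.N647.FG.Thm
import Pool.Agent.N647.FG.QuadForm

set_option autoImplicit false

/-! # Record prime gaps at the points of quadrics modulo primes -/

namespace Pool.Agent.Results.MP_f9960f_nt.QuadricsModuloPrimes

open Finset Filter

/-- the record scale for gaps between primes -/
noncomputable def f (x : ℝ) : ℝ :=
  Real.log x * (Real.log (Real.log x)) ^ 2 * Real.log (Real.log (Real.log (Real.log x))) /
    (Real.log (Real.log (Real.log x))) ^ 2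

/-- Let `r ≥ 2` and `δ > 0`. There are `κ > 0` and `p₀` such that for all primes `p ≥ p₀`, all symmetric
integer matrices `A` of size `r` with determinant prime to `p`, all integers `n` and all boxes
`∏ (M j, M j + L j]` with `p ^ δ ≤ L j ≤ p`: if `p ∤ n` and the box has volume at least
`p ^ ((r + 1) / 2 + δ)`, or if `r ≥ 3` and the box has volume at least `p ^ ((r + 2) / 2 + δ)`,
then at least `volume / p ^ (1 + δ)` of the integer points `x` of the box satisfy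
`∑ A i j x i x j ≡ n` modulo `p` and have the property that every integer at distance at most
`κ f(p)` from any of the coordinates of `x` has a prime factor at most `p ^ δ`. -/
theorem result (r : ℕ) (hr : 2 ≤ r) (δ : ℝ) (hδ : 0 < δ) :
    ∃ κ : ℝ, 0 < κ ∧ ∃ p₀ : ℕ, ∀ p : ℕ, p.Prime → p₀ ≤ p →
    ∀ A : Matrix (Fin r) (Fin r) ℤ, A.IsSymm → ¬ (p : ℤ) ∣ A.det → ∀ n : ℤ,
    ∀ (M : Fin r → ℤ) (L : Fin r → ℕ), (∀ j, (p : ℝ) ^ δ ≤ L j ∧ L j ≤ p) →
      ((¬ (p : ℤ) ∣ n ∧ (p : ℝ) ^ (((r : ℝ) + 1) / 2 + δ) ≤ ∏ j, (L j : ℝ)) ∨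
        (3 ≤ r ∧ (p : ℝ) ^ (((r : ℝ) + 2) / 2 + δ) ≤ ∏ j, (L j : ℝ))) →
      (∏ j, (L j : ℝ)) / (p : ℝ) ^ (1 + δ) ≤
        ({x : Fin r → ℤ | (∀ j, M j < x j ∧ x j ≤ M j + L j) ∧
          (p : ℤ) ∣ (∑ i, ∑ j, A i j * x i * x j) - n ∧
          ∀ j, ∀ m : ℤ, |(m : ℝ) - x j| ≤ κ * f p →
            ∃ l : ℕ, l.Prime ∧ (l : ℝ) ≤ (p : ℝ) ^ δ ∧ (l : ℤ) ∣ m}.ncard : ℝ) := by
  classical
  have hr1 : 1 ≤ r := by omega
  have hrR : (2 : ℝ) ≤ r := by exact_mod_cast hr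
  -- the case of large `δ` is empty
  by_cases hδ1 : δ ≤ 1
  swap
  · refine ⟨1, one_pos, 2, ?_⟩
    intro p hp _ A _ _ n M L hL _
    exfalso
    have hp1 : (1 : ℝ) < p := by exact_mod_cast hp.one_lt
    have h1 := hL ⟨0, by omega⟩
    have h2 : (L ⟨0, by omega⟩ : ℝ) ≤ p := by exact_mod_cast h1.2
    have h3 : (p : ℝ) ^ (1 : ℝ) < (p : ℝ) ^ δ :=
      Real.rpow_lt_rpow_of_exponent_lt hp1 (by push Not at hδ1; exact hδ1)
    rw [Real.rpow_one] at h3
    linarith [h1.1]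
  -- the two savings
  obtain ⟨κ₁, hκ₁, p₁, h₁⟩ := Pool.Agent.N647.FG.main r hr1 (((r : ℝ) - 1) / 2 - δ / 2) (δ / 2)
    (by linarith) (by linarith)
  obtain ⟨κ₂, hκ₂, p₂, h₂⟩ := Pool.Agent.N647.FG.main r hr1 (((r : ℝ) - 2) / 2 - δ / 2) (δ / 2)
    (by linarith) (by linarith)
  have hev := (Pool.Agent.W147.PS.ev_pow 0 (δ / 2) 4 (by linarith))
  have hff := (Pool.Agent.W147.PS.ff_compare 1 one_pos le_rfl).and (eventually_ge_atTop (1 : ℝ))
  obtain ⟨x₀, hx₀⟩ := eventually_atTop.mp (hev.and hff)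
  obtain ⟨p₃, hp₃⟩ := exists_nat_ge x₀
  refine ⟨min κ₁ κ₂, lt_min hκ₁ hκ₂, max (max p₁ p₂) (max p₃ 16), ?_⟩
  intro p hp hpp A hA hdet n M L hL hvol
  have : Fact p.Prime := ⟨hp⟩
  have q1 : p₁ ≤ p := ((le_max_left _ _).trans (le_max_left _ _)).trans hpp
  have q2 : p₂ ≤ p := ((le_max_right _ _).trans (le_max_left _ _)).trans hpp
  have q3 : p₃ ≤ p := ((le_max_left _ _).trans (le_max_right _ _)).trans hpp
  have q4 : 16 ≤ p := ((le_max_right _ _).trans (le_max_right _ _)).trans hpp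
  obtain ⟨g1, ⟨gf, -⟩, g2⟩ := hx₀ p (hp₃.trans (by exact_mod_cast q3))
  have hp1 : (1 : ℝ) < p := by exact_mod_cast hp.one_lt
  have hp0 : (0 : ℝ) < p := by linarith
  have hff0 : 0 ≤ Pool.Agent.W147.PS.ff p := (Real.log_nonneg g2).trans gf
  have hmono : ∀ x y : ℝ, x ≤ y → (p : ℝ) ^ x ≤ (p : ℝ) ^ y := fun x y h =>
    Real.rpow_le_rpow_of_exponent_le hp1.le h
  set B : Matrix (Fin r) (Fin r) (ZMod p) := A.map (Int.castRingHom (ZMod p)) with hB
  have hBs : B.IsSymm := by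
    rw [hB]
    exact hA.map _
  have hBdet : B.det ≠ 0 := by
    have h1 : B.det = ((A.det : ℤ) : ZMod p) := by
      rw [hB, ← RingHom.mapMatrix_apply, ← RingHom.map_det]
      rfl
    rw [h1, Ne, ZMod.intCast_zmod_eq_zero_iff_dvd]
    exact hdet
  set S := Pool.Agent.N647.FG.quadric r B (n : ZMod p) with hS
  have hs2 : Real.sqrt p = (p : ℝ) ^ (1 / 2 : ℝ) := Real.sqrt_eq_rpow _
  -- the assembly
  have key : ∀ (κ : ℝ) (ε : ℝ), min κ₁ κ₂ ≤ κ →
      (p : ℝ) ^ (r - 1) / 2 ≤ S.card →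
      (∀ (M : Fin r → ℤ) (L : Fin r → ℕ), (∀ j, L j ≤ p) → (∀ j, (p : ℝ) ^ (δ / 2) ≤ L j) →
      (p : ℝ) ^ ((r : ℝ) - ε + δ / 2) ≤ ∏ j, (L j : ℝ) →
        (p : ℝ) ^ (-(δ / 2)) * (S.card * ∏ j, ((L j : ℝ) / p)) ≤
        (((Pool.Agent.N647.FG.fam S (fun i => i) M L).filter (fun z =>
          ∀ j, Pool.Agent.N647.FG.Far (z.2 j) (κ * Pool.Agent.W147.PS.ff p)
            ((p : ℝ) ^ (δ / 2)))).card : ℝ)) →
      (p : ℝ) ^ ((r : ℝ) - ε + δ / 2) ≤ ∏ j, (L j : ℝ) →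
      (∏ j, (L j : ℝ)) / (p : ℝ) ^ (1 + δ) ≤
        ({x : Fin r → ℤ | (∀ j, M j < x j ∧ x j ≤ M j + L j) ∧
          (p : ℤ) ∣ (∑ i, ∑ j, A i j * x i * x j) - n ∧
          ∀ j, ∀ m : ℤ, |(m : ℝ) - x j| ≤ min κ₁ κ₂ * f p →
            ∃ l : ℕ, l.Prime ∧ (l : ℝ) ≤ (p : ℝ) ^ δ ∧ (l : ℤ) ∣ m}.ncard : ℝ) := by
    intro κ ε hκ hcard hmain hv
    have h1 := hmain M L (fun j => (hL j).2)
      (fun j => (hmono _ _ (by linarith)).trans (hL j).1) hv
    set T := (Pool.Agent.N647.FG.fam S (fun i => i) M L).filter (fun z =>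
          ∀ j, Pool.Agent.N647.FG.Far (z.2 j) (κ * Pool.Agent.W147.PS.ff p)
            ((p : ℝ) ^ (δ / 2))) with hT
    set Y := {x : Fin r → ℤ | (∀ j, M j < x j ∧ x j ≤ M j + L j) ∧
          (p : ℤ) ∣ (∑ i, ∑ j, A i j * x i * x j) - n ∧
          ∀ j, ∀ m : ℤ, |(m : ℝ) - x j| ≤ min κ₁ κ₂ * f p →
            ∃ l : ℕ, l.Prime ∧ (l : ℝ) ≤ (p : ℝ) ^ δ ∧ (l : ℤ) ∣ m} with hY
    have hYfin : Y.Finite := by
      apply Set.Finite.subset (Fintype.piFinset fun j => Ioc (M j) (M j + L j)).finite_toSet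
      intro x hx
      rw [mem_coe, Fintype.mem_piFinset]
      intro j
      rw [mem_Ioc]
      exact hx.1 j
    have h2 : T.card ≤ Y.ncard := by
      rw [← Set.ncard_coe_finset]
      apply Set.ncard_le_ncard_of_injOn (fun z => z.2) _ _ hYfin
      · intro z hz
        rw [mem_coe, hT, mem_filter, Pool.Agent.N647.FG.fam, mem_sigma, Fintype.mem_piFinset] at hz
        obtain ⟨⟨hz1, hz2⟩, hz3⟩ := hz
        have hz4 : ∀ j, ((z.2 j : ℤ) : ZMod p) = z.1 j := fun j => (mem_filter.mp (hz2 j)).2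
        refine ⟨fun j => mem_Ioc.mp (mem_filter.mp (hz2 j)).1, ?_, ?_⟩
        · rw [← ZMod.intCast_zmod_eq_zero_iff_dvd]
          push_cast
          rw [hS, Pool.Agent.N647.FG.quadric, mem_filter] at hz1
          rw [sub_eq_zero, ← hz1.2]
          refine sum_congr rfl fun i _ => sum_congr rfl fun j _ => ?_
          rw [hz4, hz4, hB, Matrix.map_apply]
          rfl
        · intro j m hm
          obtain ⟨l, hl, hl2, hl3⟩ := hz3 j m (hm.trans (mul_le_mul_of_nonneg_right hκ hff0))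
          exact ⟨l, hl, hl2.trans (hmono _ _ (by linarith)), hl3⟩
      · intro z hz w hw hzw
        rw [mem_coe, hT, mem_filter, Pool.Agent.N647.FG.fam, mem_sigma, Fintype.mem_piFinset] at hz hw
        obtain ⟨z1, z2⟩ := z
        obtain ⟨w1, w2⟩ := w
        simp only at hzw
        subst hzw
        have : z1 = w1 := by
          funext j
          exact (mem_filter.mp (hz.1.2 j)).2.symm.trans (mem_filter.mp (hw.1.2 j)).2
        rw [this]
    have h3 : (T.card : ℝ) ≤ (Y.ncard : ℝ) := by exact_mod_cast h2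
    refine le_trans ?_ (h1.trans h3)
    have e1 : ∏ j, ((L j : ℝ) / p) = (∏ j, (L j : ℝ)) / (p : ℝ) ^ r := by
      rw [prod_div_distrib, prod_const, card_univ, Fintype.card_fin]
    have hP0 : 0 ≤ ∏ j, (L j : ℝ) := prod_nonneg fun j _ => Nat.cast_nonneg _
    rw [e1]
    calc (∏ j, (L j : ℝ)) / (p : ℝ) ^ (1 + δ)
        = (∏ j, (L j : ℝ)) / p * (p : ℝ) ^ (-(δ / 2)) * (p : ℝ) ^ (-(δ / 2)) := by
          rw [Real.rpow_add hp0, Real.rpow_one, mul_assoc, ← Real.rpow_add hp0,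
            show -(δ / 2) + -(δ / 2) = -δ by ring, Real.rpow_neg hp0.le]
          field_simp
      _ ≤ (∏ j, (L j : ℝ)) / p * (p : ℝ) ^ (-(δ / 2)) * (1 / 2) := by
          apply mul_le_mul_of_nonneg_left _ (by positivity)
          have h4 : (p : ℝ) ^ (-(δ / 2)) * (p : ℝ) ^ (δ / 2) = 1 := by
            rw [← Real.rpow_add hp0]; simp
          have h5 : 4 ≤ (p : ℝ) ^ (δ / 2) := by simpa using g1
          have h6 : 0 < (p : ℝ) ^ (-(δ / 2)) := Real.rpow_pos_of_pos hp0 _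
          have h7 := mul_le_mul_of_nonneg_left h5 h6.le
          rw [h4] at h7
          linarith
      _ = (p : ℝ) ^ (-(δ / 2)) * ((p : ℝ) ^ (r - 1) / 2 * ((∏ j, (L j : ℝ)) / (p : ℝ) ^ r)) := by
          obtain ⟨k, rfl⟩ : ∃ k, r = k + 1 := ⟨r - 1, by omega⟩
          rw [Nat.add_sub_cancel, pow_succ]
          field_simp
      _ ≤ _ := by
          apply mul_le_mul_of_nonneg_left _ (by positivity)
          exact mul_le_mul_of_nonneg_right hcard (by positivity)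
  have hpow : ∀ k : ℕ, (Real.sqrt p) ^ k = (p : ℝ) ^ ((k : ℝ) / 2) := by
    intro k
    rw [hs2, ← Real.rpow_natCast, ← Real.rpow_mul hp0.le]
    congr 1
    ring
  have h4δ : 4 ≤ (p : ℝ) ^ (δ / 2) := by simpa using g1
  -- the bias in terms of the cardinality
  have hbias : ∀ (k : ℕ) (ε : ℝ), (k : ℝ) / 2 + δ / 2 + ε ≤ (r : ℝ) - 1 →
      (p : ℝ) ^ (r - 1) / 2 ≤ S.card → 2 * (Real.sqrt p) ^ k ≤ S.card * (p : ℝ) ^ (-ε) := by
    intro k ε hk hcard
    rw [hpow]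
    have h1 : (p : ℝ) ^ (r - 1) = (p : ℝ) ^ ((r : ℝ) - 1) := by
      rw [← Real.rpow_natCast, Nat.cast_sub hr1, Nat.cast_one]
    have h2 : (p : ℝ) ^ (δ / 2) * (p : ℝ) ^ ((k : ℝ) / 2) ≤ (p : ℝ) ^ (r - 1) * (p : ℝ) ^ (-ε) := by
      rw [h1, ← Real.rpow_add hp0, ← Real.rpow_add hp0]
      apply hmono
      linarith
    have h3 : 0 < (p : ℝ) ^ ((k : ℝ) / 2) := Real.rpow_pos_of_pos hp0 _
    have h5 : (p : ℝ) ^ (r - 1) / 2 * (p : ℝ) ^ (-ε) ≤ S.card * (p : ℝ) ^ (-ε) :=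
      mul_le_mul_of_nonneg_right hcard (by positivity)
    have h6 := mul_le_mul_of_nonneg_right h4δ h3.le
    linarith
  have hSne : (p : ℝ) ^ (r - 1) / 2 ≤ S.card → S.Nonempty := by
    intro h
    rw [← card_pos]
    have h1 : (0 : ℝ) < S.card := lt_of_lt_of_le (by positivity) h
    exact_mod_cast h1
  rcases hvol with ⟨hn, hv⟩ | ⟨hr3, hv⟩
  · have hn' : (n : ZMod p) ≠ 0 := by
      rw [Ne, ZMod.intCast_zmod_eq_zero_iff_dvd]
      exact hn
    obtain ⟨c1, c2⟩ := Pool.Agent.N647.FG.quadric_bias q4 r hr B hBs hBdet (n : ZMod p) hn'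
    have c3 := hbias (r - 1) (((r : ℝ) - 1) / 2 - δ / 2) (by
      rw [Nat.cast_sub hr1, Nat.cast_one]
      linarith) c1
    refine key κ₁ (((r : ℝ) - 1) / 2 - δ / 2) (min_le_left _ _) c1 ?_ ?_
    · intro M L a1 a2 a3
      exact h₁ p q1 (Fin r → ZMod p) S (fun i => i) (hSne c1) (fun α hα => (c2 α hα).trans c3)
        M L a1 a2 a3
    · refine (hmono _ _ ?_).trans hv
      linarith
  · obtain ⟨c1, c2⟩ := Pool.Agent.N647.FG.quadric_bias_zero q4 r hr3 B hBs hBdet (n : ZMod p)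
    have c3 := hbias r (((r : ℝ) - 2) / 2 - δ / 2) (by linarith) c1
    refine key κ₂ (((r : ℝ) - 2) / 2 - δ / 2) (min_le_right _ _) c1 ?_ ?_
    · intro M L a1 a2 a3
      exact h₂ p q2 (Fin r → ZMod p) S (fun i => i) (hSne c1) (fun α hα => (c2 α hα).trans c3)
        M L a1 a2 a3
    · refine (hmono _ _ ?_).trans hv
      linarith

end Pool.Agent.Results.MP_f9960f_nt.QuadricsModuloPrimes
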