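import Pool.Agent.N213.GF.G
import Pool.Agent.N625.DY.J

/-!
# The Elliott-Halberstam bound on average over the residues given by a random field of digits on an arbitrary graph

Method: exponential sums over the integers whose digits form a Markov random field: averages over separated neighbourhoods
in the graph of positions. The passage from such exponential sums to primes in residue classes is from the starting files
(`Pool.Agent.TH872.An.av_law`) and from `Pool.Agent.N625.DY.J` (helper625).

Examples of random fields, proved in `Pool.Agent.N213.GF.E` and `Pool.Agent.N213.GF.F`: the uniform distribution on the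
solutions of local constraints with flexible digits on a graph of positions with degrees at most `Δ`, with `η = 1 / b ^ (Δ + 1)`
(`unif_field`); in particular the integers whose nonzero digits form an independent set of the graph (`indep_local`), and,
for `b ≥ Δ + 2`, the integers whose digits are a proper colouring of the graph (`colour_local`).

From Mathlib: `ArithmeticFunction.vonMangoldt`: the function `Λ`; `Nat.totient`: Euler's function.
-/

set_option autoImplicit false

namespace Pool.Agent.Results.MP_a78e8f_nt.RandomFieldAverages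

open Finset

/-- The digit of `v` at the position `i` in base `b` (the position `0` is the least significant one). -/
def dig (b v i : ℕ) : ℕ := v / b ^ i % b

/-- The integer which has the digits of `v` at the positions in `S` and the digits of `w` at the other positions below `k`. -/
def splice (b k : ℕ) (S : Finset ℕ) (v w : ℕ) : ℕ := ∑ i ∈ range k, (if i ∈ S then dig b v i else dig b w i) * b ^ i

/-- `v` and `w` have the same digits outside the set `S` of positions. -/
def Off (b : ℕ) (S : Finset ℕ) (v w : ℕ) : Prop := ∀ i, i ∉ S → dig b v i = dig b w i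

open Classical in
/-- The closed neighbourhood of the position `i` in the graph `A` on the positions `0, …, k - 1`. -/
noncomputable def nb (k : ℕ) (A : ℕ → ℕ → Prop) (i : ℕ) : Finset ℕ := (range k).filter fun j => j = i ∨ A i j

open Classical in
/-- The total weight of the integers below `b ^ k` which have the same digits as `v` outside `S`. -/
noncomputable def mass (b k : ℕ) (p : ℕ → ℝ) (S : Finset ℕ) (v : ℕ) : ℝ :=
  ∑ w ∈ (range (b ^ k)).filter (fun w => Off b S w v), p w

/-- The digits of a random integer `v < b ^ k` (with the probabilities `p v`) form a Markov random field on a graph `A` of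
positions with degrees at most `Δ` (the Markov property: for every set `S` of positions and all `v`, `w` which have the same
digits at the positions outside `S` adjacent to `S`, the product `p v * p w` does not change if `v` and `w` exchange their
digits in `S`), and each digit is flexible: for every `v` with `p v ≠ 0` and every position `i`, there are `x` and `y` which
have the same digits as `v` outside the closed neighbourhood of `i`, which differ from each other exactly at the position
`i`, and whose conditional probabilities, given the digits outside this neighbourhood, are at least `η`. -/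
structure Field (b k Δ : ℕ) (η : ℝ) (A : ℕ → ℕ → Prop) (p : ℕ → ℝ) : Prop where
  symm : ∀ i j, A i j → A j i
  degree : ∀ i < k, (nb k A i).card ≤ Δ + 1
  nonneg : ∀ v, 0 ≤ p v
  sum : ∑ v ∈ range (b ^ k), p v = 1
  markov : ∀ S : Finset ℕ, ∀ v < b ^ k, ∀ w < b ^ k, (∀ i ∈ S, ∀ j < k, j ∉ S → A i j → dig b v j = dig b w j) →
    p v * p w = p (splice b k S v w) * p (splice b k S w v)
  flexible : ∀ v < b ^ k, p v ≠ 0 → ∀ i < k, ∃ x < b ^ k, ∃ y < b ^ k, Off b (nb k A i) x v ∧ Off b {i} y x ∧
    dig b y i ≠ dig b x i ∧ η * mass b k p (nb k A i) v ≤ p x ∧ η * mass b k p (nb k A i) v ≤ p y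

/-- `ψ(x; q, a)`: the sum of `Λ(n)` over the `n ≤ x` with `n ≡ a (mod q)`. -/
noncomputable def psi (x q a : ℕ) : ℝ :=
  ∑ n ∈ (Icc 1 x).filter (fun n => n ≡ a [MOD q]), ArithmeticFunction.vonMangoldt n

/-- The expectation of `w(v) (ψ(x; q, a) - x / φ(q))`, where `v < b ^ k` has the probability `p v`, restricted to the `v`
for which the residue `a = c + κ v` is positive and coprime to `q`. -/
noncomputable def average (b k : ℕ) (p : ℕ → ℝ) (κ c : ℤ) (w : ℕ → ℝ) (x q : ℕ) : ℝ :=
  ∑ v ∈ (range (b ^ k)).filter (fun v : ℕ => 0 < c + κ * (v : ℤ) ∧ (c + κ * (v : ℤ)).toNat.Coprime q),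
    p v * (w v * (psi x q (c + κ * (v : ℤ)).toNat - (x : ℝ) / Nat.totient q))

lemma field_conv {b k Δ : ℕ} {η : ℝ} {A : ℕ → ℕ → Prop} {p : ℕ → ℝ} (h : Field b k Δ η A p) :
    Pool.Agent.N213.GF.Field b k Δ η A p :=
  ⟨h.symm, h.degree, h.nonneg, h.sum, h.markov, h.flexible⟩

/-- Let `b ≥ 2`, `Δ`, `η > 0`, `κ ≠ 0`, `B`, `T`, `U` and `ε > 0` be fixed, let `k` be large and `N = b ^ k`. Let `c` be an
arbitrary integer with `|c| ≤ B N`, let `w(v)` be arbitrary real coefficients with `|w(v)| ≤ k ^ T`, for every modulus `q`
let `x(q) ≤ B N` be an arbitrary height, and let `v < N` be a random integer whose digits form a Markov random field with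
flexible digits on an arbitrary graph of positions with degrees at most `Δ` (`k` must be large in terms of `b`, `Δ`, `η`,
`κ`, `B`, `T`, `U`, `ε`, but not in terms of the graph, the distribution, `c`, `w` and `x`). Then the sum over ALL moduli
`q ≤ N ^ (1 - ε)` of the ABSOLUTE VALUE of the expectation of `w(v) (ψ(x(q); q, a_v) - x(q) / φ(q))`, restricted to the `v`
for which the residue `a_v = c + κ v` is positive and coprime to `q`, is at most `N / k ^ U`. -/
theorem result (b Δ : ℕ) (hb : 2 ≤ b) (η : ℝ) (hη : 0 < η) (κ : ℤ) (hκ : κ ≠ 0) (B T U : ℕ) (ε : ℝ) (hε : 0 < ε) :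
    ∃ k₀ : ℕ, ∀ k : ℕ, k₀ ≤ k → ∀ c : ℤ, |c| ≤ B * (b : ℤ) ^ k → ∀ w : ℕ → ℝ, (∀ v, |w v| ≤ (k : ℝ) ^ T) →
      ∀ x : ℕ → ℕ, (∀ q, x q ≤ B * b ^ k) → ∀ (A : ℕ → ℕ → Prop) (p : ℕ → ℝ), Field b k Δ η A p →
      ∑ q ∈ Icc 1 ⌊((b ^ k : ℕ) : ℝ) ^ (1 - ε)⌋₊, |average b k p κ c w (x q) q| ≤ ((b ^ k : ℕ) : ℝ) / (k : ℝ) ^ U := by
  obtain ⟨k₀, h0⟩ := Pool.Agent.N625.DY.cls_avg (Pool.Agent.N213.GF.gf_cls b Δ η hb hη κ hκ) B T U ε hε
  exact ⟨k₀, fun k hk c hc w hw x hx A p hp => h0 k hk p ⟨A, field_conv hp⟩ c hc w hw x hx⟩

end Pool.Agent.Results.MP_a78e8f_nt.RandomFieldAverages
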