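import Pool.Agent.N422.MT8

/-!
# The Maynard-Tao sieve is optimal among all sums of squares

Author: helper422.  The weighted method of Goldston-Pintz-Yıldırım and Maynard-Tao finds primes among `n + h`, `h ∈ H`, by
comparing the mean number of them, with respect to a nonnegative sieve weight `w(n)`, `X < n ≤ 2X`, with an integer.  The
weights used are squares of divisor sums of level `R`, and for these the mean is at most
`(k / (k - 1)) log k (log R / log X) + o(1)`, `k = #H` (Maynard, Polymath: `M_k ≤ (k / (k - 1)) log k`), while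
`(1 + o(1)) log k (log R / log X)` is reached as `k → ∞` (Maynard, Tao).

Here the upper bound is proved for all sums of squares: `w = ∑_j (∑_{d ≤ R} v_{j,d})²`, where `v_{j,d}` is an arbitrary
function with period `d`, and for all sets `H` in `[0, X]`, uniformly.  The weight has to be `Good`: it is a combination
of level `Q ≤ X^(1/2) (log X)^(-B)`, of size and mass within powers of `log X` (this is what the theorem of Bombieri and
Vinogradov needs).  For `R ≤ X^(1/4)` and `#H ≤ 50` the mean is smaller than `1`: no weight of this kind, divisor sum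
or not, finds two primes in `n + H`; Polymath reached `50` sites.

Proof.  The theorem of Bombieri and Vinogradov (starting files; reduction: `Pool.Agent.Y829.RP`, helper829) leads to the
mean of `w(n)` over a period with `n + h` free of the primes `p ≤ Q`.  At each large prime a function splits into its mean
value, a multiple of the centred indicator function of the site, and the rest (`N422.MT1`); the operators at different
primes commute, and the value on the points which are not hit is a sum over sets `T` of primes, for every set `S` of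
primes where the function is in the rest (`N422.MT2`, `N422.MT3`).  The inequality of Cauchy and Schwarz is used with the
weights `log R - log ∏ S + (k - 1) log ∏ T`; the sum of the weighted energies over the sites is controlled by the level
inequality (helper835) and the almost orthogonality of the sites (`N422.MT4`).  The sums over `T` are
evaluated with the right constant in `N422.MT5` and `N422.MT6`.
-/

set_option autoImplicit false

open Finset

namespace Pool.Agent.N422.Shelf.SquareWeightsForTuples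

/-- the weight `w(n) = ∑_{d ≤ Q} c_d(n mod d)` -/
noncomputable def weight (Q : ℕ) (c : ℕ → ℕ → ℝ) (n : ℕ) : ℝ := ∑ d ∈ Icc 1 Q, c d (n % d)

/-- `s(d) = ∑_{a mod d} |c_d(a)|` -/
noncomputable def size (c : ℕ → ℕ → ℝ) (d : ℕ) : ℝ := ∑ a ∈ range d, |c d a|

/-- the mass of the weight on `(X, 2X]` -/
noncomputable def mass (X Q : ℕ) (c : ℕ → ℕ → ℝ) : ℝ := ∑ n ∈ Ioc X (2 * X), weight Q c n

/-- the level `Q` is at most `X^(1/2) (log X)^(-B/2)`, `∑_{d ≤ Q} s(d)² / d ≤ (log X)^K` and the mass is at least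
`X / (log X)^K` -/
def Good (K B X Q : ℕ) (c : ℕ → ℕ → ℝ) : Prop :=
  1 ≤ Q ∧ (Q : ℝ) ^ 2 * Real.log X ^ B ≤ X ∧ ∑ d ∈ Icc 1 Q, size c d ^ 2 / d ≤ Real.log X ^ K ∧
    X / Real.log X ^ K ≤ mass X Q c

/-- `w` is a finite sum of squares of functions of level `R`: `w(n) = ∑_j (∑_{d ≤ R} v_{j,d}(n))²`, where `v_{j,d}` is
a real function with period `d` -/
def Squares (R : ℕ) (w : ℕ → ℝ) : Prop :=
  ∃ (m : ℕ) (v : ℕ → ℕ → ℕ → ℝ), (∀ j d n, v j d (n + d) = v j d n) ∧
    ∀ n, w n = ∑ j ∈ range m, (∑ d ∈ Icc 1 R, v j d n) ^ 2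

/-- the number of `h ∈ H` with `n + h` prime -/
noncomputable def primesIn (H : Finset ℕ) (n : ℕ) : ℝ := ((H.filter (fun h => (n + h).Prime)).card : ℝ)

theorem ratio_le {k : ℝ} (h1 : 1 < k) (h50 : k ≤ 50) : k * Real.log k / (k - 1) ≤ 50 / 49 * Real.log 50 := by
  have hk0 : 0 < k := by linarith
  have ha : 0 ≤ (1 - 1 / k) * (50 / 49) := by
    have : 1 / k ≤ 1 := by rw [div_le_one hk0]; exact h1.le
    have : 0 ≤ 1 - 1 / k := by linarith
    positivity
  have hb : 0 ≤ 1 - (1 - 1 / k) * (50 / 49) := by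
    have : 1 / 50 ≤ 1 / k := one_div_le_one_div_of_le hk0 h50
    linarith
  have h2 := strictConcaveOn_log_Ioi.concaveOn.2 (show (1 / 50 : ℝ) ∈ Set.Ioi 0 by norm_num)
    (show (1 : ℝ) ∈ Set.Ioi 0 by norm_num) ha hb (by ring)
  simp only [smul_eq_mul] at h2
  have e1 : (1 - 1 / k) * (50 / 49) * (1 / 50) + (1 - (1 - 1 / k) * (50 / 49)) * 1 = 1 / k := by ring
  rw [e1, Real.log_one, mul_zero, add_zero, one_div, one_div, Real.log_inv, Real.log_inv] at h2
  rw [div_le_iff₀ (by linarith)]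
  have h3 : Real.log k ≤ (1 - k⁻¹) * (50 / 49) * Real.log 50 := by linarith
  have h4 := mul_le_mul_of_nonneg_left h3 hk0.le
  refine h4.trans (le_of_eq ?_)
  field_simp

theorem log50 : 50 / 49 * Real.log 50 / 4 ≤ 9985 / 10000 := by
  have h1 : Real.log 5 ≤ 72 / 31 * Real.log 2 := by
    have h2 : Real.log ((5 : ℝ) ^ 31) ≤ Real.log ((2 : ℝ) ^ 72) := Real.log_le_log (by positivity) (by norm_num)
    rw [Real.log_pow, Real.log_pow] at h2
    push_cast at h2
    linarith
  have h2 : Real.log 50 = Real.log 2 + 2 * Real.log 5 := by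
    rw [show (50 : ℝ) = 2 * 5 ^ 2 by norm_num, Real.log_mul (by norm_num) (by norm_num), Real.log_pow]
    norm_num
  have h3 := Real.log_two_lt_d9
  rw [h2]
  linarith

theorem maxi (B : ∀ k : ℕ, 2 ≤ k → ℕ) : ∃ m, ∀ (k : ℕ) (hk : 2 ≤ k), k ≤ 50 → B k hk ≤ m := by
  obtain ⟨f, hf⟩ : ∃ f : ℕ → ℕ, ∀ k, ∀ hk : 2 ≤ k, f k = B k hk :=
    ⟨fun k => if hk : 2 ≤ k then B k hk else 0, fun k hk => dif_pos hk⟩
  refine ⟨∑ k ∈ range 51, f k, fun k hk h50 => ?_⟩
  rw [← hf k hk]
  exact single_le_sum (fun _ _ => Nat.zero_le _) (mem_range.2 (by omega))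

/-- Let `k ≥ 2`. For all `K` and `ε > 0` there are `B`, `X₀` such that for `X ≥ X₀`, every `Good` weight `w` which is a
sum of squares of functions of level `R ≤ X` and every set `H` of `k` integers in `[0, X]`, the mean number of primes
`n + h`, `h ∈ H`, over `X < n ≤ 2X` with respect to `w`, is at most `(k / (k - 1)) log k (log R / log X) + ε`.
If `R⁴ ≤ X` and `2 ≤ #H ≤ 50` then the mean is at most `1 - 1/1000`. -/
theorem result :
    (∀ (k K : ℕ) (ε : ℝ), 2 ≤ k → 0 < ε → ∃ B X₀ : ℕ, ∀ X : ℕ, X₀ ≤ X → ∀ (Q : ℕ) (c : ℕ → ℕ → ℝ), Good K B X Q c →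
      ∀ R : ℕ, R ≤ X → Squares R (weight Q c) → ∀ H : Finset ℕ, H.card = k → (∀ h ∈ H, h ≤ X) →
        ∑ n ∈ Ioc X (2 * X), weight Q c n * primesIn H n ≤
          (k * Real.log k / (k - 1) * (Real.log R / Real.log X) + ε) * mass X Q c) ∧
    (∀ K : ℕ, ∃ B X₀ : ℕ, ∀ X : ℕ, X₀ ≤ X → ∀ (Q : ℕ) (c : ℕ → ℕ → ℝ), Good K B X Q c →
      ∀ R : ℕ, R ^ 4 ≤ X → Squares R (weight Q c) → ∀ H : Finset ℕ, 2 ≤ H.card → H.card ≤ 50 → (∀ h ∈ H, h ≤ X) →
        ∑ n ∈ Ioc X (2 * X), weight Q c n * primesIn H n ≤ (1 - 1 / 1000) * mass X Q c) := by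
  have hfirst : ∀ (k K : ℕ) (ε : ℝ), 2 ≤ k → 0 < ε → ∃ B X₀ : ℕ, ∀ X : ℕ, X₀ ≤ X → ∀ (Q : ℕ) (c : ℕ → ℕ → ℝ), Good K B X Q c →
      ∀ R : ℕ, R ≤ X → Squares R (weight Q c) → ∀ H : Finset ℕ, H.card = k → (∀ h ∈ H, h ≤ X) →
        ∑ n ∈ Ioc X (2 * X), weight Q c n * primesIn H n ≤
          (k * Real.log k / (k - 1) * (Real.log R / Real.log X) + ε) * mass X Q c := by
    intro k K ε hk hε
    obtain ⟨B, X₀, h⟩ := Pool.Agent.N422.MT.main k K hk ε hε
    refine ⟨B, X₀, ?_⟩
    intro X hX Q c hc R hR hsq H hH hHX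
    obtain ⟨g1, g2, g3, g4⟩ := hc
    exact h X hX Q R g1 g2 hR c hsq g3 g4 H hH hHX
  refine ⟨hfirst, ?_⟩
  intro K
  choose B X₀ h using fun k : ℕ => fun hk : 2 ≤ k => hfirst k K (1 / 2000) hk (by norm_num)
  obtain ⟨Bm, hBm⟩ := maxi B
  obtain ⟨Xm, hXm⟩ := maxi X₀
  refine ⟨Bm, max Xm 3, ?_⟩
  intro X hX Q c hc R hR hsq H hH2 hH50 hHX
  have hX3 : 3 ≤ X := (le_max_right _ _).trans hX
  have hXr : (0 : ℝ) < X := by exact_mod_cast (by omega : 0 < X)
  have hL1 : 1 ≤ Real.log X := by
    rw [Real.le_log_iff_exp_le hXr]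
    have := Real.exp_one_lt_d9
    have : (3 : ℝ) ≤ X := by exact_mod_cast hX3
    linarith
  have hB : B H.card hH2 ≤ Bm := hBm _ _ hH50
  have hX' : X₀ H.card hH2 ≤ X := (hXm _ _ hH50).trans ((le_max_left _ _).trans hX)
  obtain ⟨g1, g2, g3, g4⟩ := hc
  have hc' : Good K (B H.card hH2) X Q c := by
    have e1 : Real.log X ^ B H.card hH2 ≤ Real.log X ^ Bm := pow_le_pow_right₀ hL1 hB
    have e2 : (Q : ℝ) ^ 2 * Real.log X ^ B H.card hH2 ≤ (Q : ℝ) ^ 2 * Real.log X ^ Bm :=
      mul_le_mul_of_nonneg_left e1 (sq_nonneg (Q : ℝ))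
    exact ⟨g1, e2.trans g2, g3, g4⟩
  have hRX : R ≤ X := by
    rcases Nat.eq_zero_or_pos R with h1 | h1
    · omega
    · exact (Nat.le_self_pow (by norm_num) R).trans hR
  have h1 := h H.card hH2 X hX' Q c hc' R hRX hsq H rfl hHX
  refine h1.trans (mul_le_mul_of_nonneg_right ?_ ?_)
  · have hk2 : (2 : ℝ) ≤ H.card := by exact_mod_cast hH2
    have h2 := ratio_le (k := (H.card : ℝ)) (by linarith) (by exact_mod_cast hH50)
    have h3 := log50
    have hlR : Real.log R / Real.log X ≤ 1 / 4 := by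
      rw [div_le_iff₀ (by linarith)]
      rcases Nat.eq_zero_or_pos R with h4 | h4
      · rw [h4]
        simp
        linarith
      · have h5 : Real.log ((R : ℝ) ^ 4) ≤ Real.log X := by
          apply Real.log_le_log
          · have : (0 : ℝ) < R := by exact_mod_cast h4
            positivity
          · exact_mod_cast hR
        rw [Real.log_pow] at h5
        push_cast at h5
        linarith
    have hlR0 : 0 ≤ Real.log R / Real.log X := div_nonneg (Real.log_natCast_nonneg R) (by linarith)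
    have h50 : 0 ≤ 50 / 49 * Real.log 50 := mul_nonneg (by norm_num) (Real.log_nonneg (by norm_num))
    have h4 : (H.card : ℝ) * Real.log H.card / (H.card - 1) * (Real.log R / Real.log X) ≤
        50 / 49 * Real.log 50 * (1 / 4) := mul_le_mul h2 hlR hlR0 h50
    linarith
  · refine sum_nonneg fun n _ => ?_
    obtain ⟨m, v, -, hwv⟩ := hsq
    rw [hwv]
    exact sum_nonneg fun _ _ => sq_nonneg _

end Pool.Agent.N422.Shelf.SquareWeightsForTuples
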